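import Pool.Agent.W901.FC.LawA

/-!
# `NP/Poly ⊆ P/Poly` from `NP ⊆ P/Poly`
-/

set_option autoImplicit false

namespace Pool.Agent.Y615.PP

open Pool.Agent.NPC Pool.Agent.W901.NU Pool.Agent.W920.NL Pool.Agent.H579R2.Spt

/-- Advice strings can be concatenated. -/
theorem npp_sub_pp (h : ∀ L : Set (List Bool), InNP L → InPpoly L) {S : Set (List Bool)}
    (hS : InNPPoly S) : InPpoly S := by
  obtain ⟨L, a, r, hL, ha, hS⟩ := hS
  obtain ⟨V, α, p, hV, hα, hV2⟩ := h L hL
  have hVp : NPC.Poly V := PIso.poly_iff.2 hV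
  refine ⟨fun z => V (pairBits (pairBits (unpair z).1 (unpair (unpair z).2).1)
      (unpair (unpair z).2).2),
    fun n => pairBits (a n) (α (2 * n + (a n).length + 1)),
    Polynomial.C 2 * r + p.comp (Polynomial.C 2 * Polynomial.X + r + 1) + 1, ?_, fun n => ?_,
    fun x => ?_⟩
  · refine PIso.poly_iff.1 ?_
    have e1 := NPC.Poly.fst poly_unpair
    have e2 := NPC.Poly.snd poly_unpair
    have e3 := poly_unpair.comp e2
    exact hVp.comp (H622R2.poly_pairBits (H622R2.poly_pairBits e1 (NPC.Poly.fst e3))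
      (NPC.Poly.snd e3))
  · rw [pairBits_len]
    have h1 := ha n
    have h2 := hα (2 * n + (a n).length + 1)
    have h3 := eval_mono p (show 2 * n + (a n).length + 1 ≤ 2 * n + r.eval n + 1 by omega)
    simp only [Polynomial.eval_add, Polynomial.eval_mul, Polynomial.eval_C, Polynomial.eval_comp,
      Polynomial.eval_one, Polynomial.eval_X]
    omega
  · rw [hS, hV2]
    simp only [unpair_pairBits, pairBits_len]

/-- The preimage of a set in `NP` under the first projection is in `NP`. -/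
theorem inNP_fst {L : Set (List Bool)} (hL : InNP L) : InNP {z | (unpair z).1 ∈ L} := by
  obtain ⟨V, p, hV, hL⟩ := hL
  refine ⟨fun y => [ver V p (unpair (unpair y).1).1 (unpair y).2], p, ?_, fun z => ?_⟩
  · refine polyTime_of_poly ?_
    exact (ver_poly hV p).comp (NPC.Poly.pair (NPC.Poly.fst (poly_unpair.comp
      (NPC.Poly.fst poly_unpair))) (NPC.Poly.snd poly_unpair))
  · rw [Set.mem_setOf_eq, hL]
    simp only [unpair_pairBits, List.cons.injEq, and_true, ver_iff]
    constructor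
    · rintro ⟨w, h1, h2⟩
      exact ⟨w, h1.trans (eval_mono p (unpair_fst_length z)), h1, h2⟩
    · rintro ⟨w, -, h1, h2⟩
      exact ⟨w, h1, h2⟩

/-- `P/Poly ⊆ NP/Poly`. -/
theorem pp_sub_npp {S : Set (List Bool)} (hS : InPpoly S) : InNPPoly S := by
  obtain ⟨V, α, p, hV, hα, hS⟩ := hS
  exact ⟨{z | V z = [true]}, α, p, InP.inNP ⟨V, hV, fun x => Iff.rfl⟩, hα, hS⟩

end Pool.Agent.Y615.PP
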